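import Pool.Agent.VMX.StmtsF

/-!
# Squad VMX, THEOREM FULL, row FNL (helper8): the final theorem for every number of vertices
-/

set_option autoImplicit false

open Matrix Filter Topology

namespace Pool.Agent.VMX.H8

open Pool.Agent.PFS Pool.Agent.PFJ Pool.Agent.NBT

/-- `Nv` is monotone in `η` -/
theorem nv_mono {n k : ℕ} {C : Set (V n)} (hP : PCone C) {w : Fin (k + 1) → V n}
    (hw : ∑ m, w m ∈ closure C) {η η' : ℝ} (h : η ≤ η') {i : Fin (k + 1)} {v : V n}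
    (hv : Nv C η w i v) : Nv C η' w i v := by
  have h1 : (η' - η) • (∑ m, w m) ∈ closure C := hP.cl_smul hw (by linarith)
  refine ⟨?_, ?_⟩
  · have h2 := hP.cl_add hv.1 h1
    have e : η • (∑ m, w m) - (v - w i) + (η' - η) • (∑ m, w m) =
        η' • (∑ m, w m) - (v - w i) := by
      rw [sub_smul]; abel
    rwa [e] at h2
  · have h2 := hP.cl_add hv.2 h1
    have e : η • (∑ m, w m) + (v - w i) + (η' - η) • (∑ m, w m) =
        η' • (∑ m, w m) + (v - w i) := by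
      rw [sub_smul]; abel
    rwa [e] at h2

/-- `RN` is monotone in `ε` -/
theorem rn_mono {n k : ℕ} {C : Set (V n)} (hP : PCone C) {Γ : Subgroup (GL (Fin n) ℝ)}
    {w z : Fin (k + 1) → V n} {e : Fin (k + 1) → ℝ} {g : GL (Fin n) ℝ} {s ε ε' : ℝ}
    (h : ε ≤ ε') (hR : RN C Γ ε w z e g s) : RN C Γ ε' w z e g s := by
  have hw : ∑ m, w m ∈ closure C := subset_closure hR.pes.1.sum_mem
  exact ⟨hR.pes, hR.pez, hR.gm, hR.s0, hR.e0, hR.eq, fun i => nv_mono hP hw h (hR.nr i)⟩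

/-- `Far` is monotone in `δ` -/
theorem far_mono {k : ℕ} {δ δ' lam : ℝ} {e : Fin (k + 1) → ℝ} {i : Fin (k + 1)}
    (h : δ ≤ δ') (hl : 0 < lam) (he : ∀ i, 0 < e i) (hF : Far δ lam e i) : Far δ' lam e i := by
  intro m hm
  rcases hF m hm with h1 | h1
  · exact Or.inl (h1.trans (mul_le_mul_of_nonneg_right h (he m).le))
  · exact Or.inr (h1.trans (mul_le_mul_of_nonneg_right h hl.le))

theorem fnl (hSua : SuaStmt) (hSub : SubStmt) (hNev : NevStmt) (hThr : ThrStmt)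
    (hIdx : IdxStmt) (hNea : NeaStmt) (hUnx : UnxStmt) (hMap : MapStmt) (hBnd : BndStmt)
    (hRay : RayStmt) (hExt : ExtStmt) (hFgr : FgrStmt) (hCoc : CocStmt) (hFge : FgeStmt)
    (hTpv : TpvStmt) (hBtv : BtvStmt) (hAbn : AbnStmt) : FnlStmt := by
  intro n C Γ hC K hK hM hw
  obtain ⟨k, rfl⟩ : ∃ k, K = k + 1 := ⟨K - 1, by omega⟩
  have hk : 2 ≤ k := by omega
  have hP : PCone C := hC.toPCone
  have hul : HulFacts C Γ := hC.hul
  have hH : KT3.HK C Γ (k + 1) := { toCC := hC, three := hK, maxc := hM }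
  have hkR : (2 : ℝ) ≤ (k : ℝ) := by exact_mod_cast hk
  -- the exponents
  obtain ⟨a, ha⟩ : ∃ a : Fin (k + 1) → ℝ, ∀ i, a i = (k : ℝ) - (i.val : ℝ) :=
    ⟨_, fun _ => rfl⟩
  have ha0 : a 0 = k := by rw [ha]; simp
  have ha1 : a (Fin.last k) = 0 := by rw [ha]; simp
  have hi1 : (Fin.last k : Fin (k + 1)) ≠ 0 := by
    intro h
    have h1 := congrArg Fin.val h
    simp only [Fin.val_last, Fin.val_zero] at h1
    omega
  have hainj : Function.Injective a := by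
    intro i j hij
    rw [ha, ha] at hij
    have h1 : (i.val : ℝ) = (j.val : ℝ) := by linarith
    exact Fin.ext (by exact_mod_cast h1)
  have hA0 : ∀ i, i ≠ 0 → a i < a 0 := by
    intro i hi
    rw [ha0, ha]
    have h1 : 0 < i.val := Nat.pos_of_ne_zero fun h => hi (Fin.ext h)
    have h2 : (0 : ℝ) < (i.val : ℝ) := by exact_mod_cast h1
    linarith
  have hA1 : ∀ i, i ≠ Fin.last k → a (Fin.last k) < a i := by
    intro i hi
    rw [ha1, ha]
    have h1 : i.val < k := by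
      have h3 := i.2
      have h4 : i.val ≠ k := fun h => hi (Fin.ext h)
      omega
    have h2 : (i.val : ℝ) < (k : ℝ) := by exact_mod_cast h1
    linarith
  -- the constants
  obtain ⟨θ, hθ, hUN⟩ := hUnx n k C Γ hH (1 / 32) (by norm_num)
  set η : ℝ := min θ (1 / 32) with hη
  have hη0 : 0 < η := lt_min hθ (by norm_num)
  have hη1 : η ≤ θ := min_le_left _ _
  have hη2 : η ≤ 1 / 32 := min_le_right _ _
  obtain ⟨δ₁, hδ₁, hN1⟩ := hNea n k C Γ hH η hη0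
  obtain ⟨δ₂, hδ₂, hN2⟩ := hNea n k C Γ hH (1 / 16) (by norm_num)
  have hk1 : (0 : ℝ) < (k : ℝ) + 1 := by linarith
  set δ : ℝ := min δ₁ (min δ₂ (1 / (16 * ((k : ℝ) + 1)))) with hδ
  have hδ0 : 0 < δ := lt_min hδ₁ (lt_min hδ₂ (by positivity))
  have hδa : δ ≤ δ₁ := min_le_left _ _
  have hδb : δ ≤ δ₂ := (min_le_right _ _).trans (min_le_left _ _)
  have hδc : δ ≤ 1 / (16 * ((k : ℝ) + 1)) := (min_le_right _ _).trans (min_le_right _ _)
  have hδd : δ * (16 * ((k : ℝ) + 1)) ≤ 1 := by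
    have h1 := mul_le_mul_of_nonneg_right hδc (by positivity : (0 : ℝ) ≤ 16 * ((k : ℝ) + 1))
    rwa [one_div, inv_mul_cancel₀ (by positivity)] at h1
  have hδ1 : δ ≤ 1 := by nlinarith
  have hηδ : η + 2 * ((k : ℝ) + 1) * δ ≤ 1 / 2 := by nlinarith
  obtain ⟨S₀, hS₀⟩ := hIdx k a hainj δ hδ0
  obtain ⟨e1, S1, he1, h1⟩ := hTpv n k C Γ hH a hA0
  obtain ⟨e2, S2, he2, h2⟩ := hBtv n k C Γ hH a (Fin.last k) hi1 hA1
  set ε : ℝ := min δ (min e1 e2) with hε
  have hε0 : 0 < ε := lt_min hδ0 (lt_min he1 he2)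
  obtain ⟨w, z, g, s, σ, lam, hσ, hFG⟩ := hFge n k C Γ hH hw a hA0 ε
    (max (max S1 S2) (max S₀ 2)) hε0
  have hσ1 : S1 ≤ σ := (le_max_left _ _).trans ((le_max_left _ _).trans hσ)
  have hσ2 : S2 ≤ σ := (le_max_right _ _).trans ((le_max_left _ _).trans hσ)
  have hσ3 : S₀ ≤ σ := (le_max_left _ _).trans ((le_max_right _ _).trans hσ)
  have hσ4 : 2 ≤ σ := (le_max_right _ _).trans ((le_max_right _ _).trans hσ)
  obtain ⟨ψ, hψ⟩ := h1 ε σ w z g s lam ((min_le_right _ _).trans (min_le_left _ _)) hσ1 hFG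
  obtain ⟨b, μ, ψ', hψ', hμ1, hμ2, hpos, hbL, -⟩ := h2 ε σ w z g s lam hε0
    ((min_le_right _ _).trans (min_le_right _ _)) hσ2 hFG
  rw [ha1, zero_mul, Real.exp_zero] at hμ1 hμ2
  have hμ0 : 0 < μ := by linarith
  have hexp : 5 ≤ Real.exp (a 0 * σ) := by
    have h3 := Real.add_one_le_exp (a 0 * σ)
    rw [ha0] at h3 ⊢
    nlinarith
  have hlam := hFG.l1
  have hlam2 := hFG.l2
  have hla : μ < Real.exp (a 0 * σ) * lam := by nlinarith
  have hla0 : 0 < Real.exp (a 0 * σ) * lam := hμ0.trans hla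
  have hab : w 0 + b ∉ C := hAbn n k C Γ hC hk w hFG.pes g hFG.gm s
    (Real.exp (a 0 * σ) * lam) μ (Fin.last k) b ψ' hFG.s0 hla0 hμ0 hi1 hFG.e0 hψ' hpos
  have hs0 : 0 < s := hFG.s0
  have hgm : g ∈ Γ := hFG.gm
  -- the eigenvectors
  have hne := hNev n C Γ hC g hgm s (Real.exp (a 0 * σ) * lam) (w 0) ψ hs0 (hFG.pes.2 0) hψ
  obtain ⟨m, lam', q', -, hq', hsum, -⟩ := hSua n C Γ hC g hgm s hs0 hne
  obtain ⟨r, φ, hφ, hpq⟩ := hSub n C Γ hC m q' (fun i => (hq' i).2.1) hsum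
  have hr : 3 ≤ r := hThr n C Γ hC g hgm s (Real.exp (a 0 * σ) * lam) μ (w 0) b ψ ψ' hs0 hμ0 hla
    (hFG.pes.2 0) hbL hψ hψ' hab r (fun j => lam' (φ j)) (fun j => q' (φ j))
    (fun j => hq' (φ j)) hpq
  obtain ⟨k', rfl⟩ : ∃ k', r = k' + 1 := ⟨r - 1, by omega⟩
  have hk' : 2 ≤ k' := by omega
  -- the near return
  set e : Fin (k + 1) → ℝ := fun i => Real.exp (a i * σ) * (if i = 0 then lam else 1) with he
  set z' : Fin (k + 1) → V n := Function.update z 0 (w 0) with hz'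
  have hRε : RN C Γ ε w z' e g s := hFgr n k C Γ hC a ε σ w z g s lam hε0.le hFG
  have hRδ : RN C Γ δ w z' e g s := rn_mono hP (min_le_left _ _) hRε
  have hfl : ∑ m, w m ∈ closure C := subset_closure hFG.pes.1.sum_mem
  have hebd : ∀ i, Real.exp (a i * σ) / 2 ≤ e i ∧ e i ≤ 2 * Real.exp (a i * σ) := by
    intro i
    have h3 : 0 < Real.exp (a i * σ) := Real.exp_pos _
    simp only [he]
    split_ifs
    · constructor <;> nlinarith
    · constructor <;> linarith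
  have key : ∀ j : Fin (k' + 1), Ext C (q' (φ j)) ∧
      ∀ v, Eg C Γ g s (lam' (φ j)) v → ∃ c : ℝ, 0 < c ∧ v = c • q' (φ j) := by
    intro j
    obtain ⟨hl0, hEg⟩ := hq' (φ j)
    obtain ⟨i, hFar⟩ := hS₀ σ hσ3 e hebd (lam' (φ j)) hl0
    obtain ⟨c, hc, hNv⟩ := hN1 w z' e g s (lam' (φ j)) (rn_mono hP hδa hRδ) hl0 i
      (far_mono hδa hl0 hRδ.e0 hFar) (q' (φ j)) hEg
    have hN2' : ∀ v, Eg C Γ g s (lam' (φ j)) v → ∃ c : ℝ, 0 < c ∧ Nv C (1 / 16) w i (c • v) :=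
      fun v hv => hN2 w z' e g s (lam' (φ j)) (rn_mono hP hδb hRδ) hl0 i
        (far_mono hδb hl0 hRδ.e0 hFar) v hv
    set p : V n := c • q' (φ j) with hp
    have hEgp : Eg C Γ g s (lam' (φ j)) p := by
      refine ⟨hul.lamSmul _ hEg.1 c hc, ?_⟩
      rw [hp, CC.act_smul, smul_comm s c, hEg.2, smul_comm]
    obtain ⟨γ, t, T, hMT, hTcl, hTcom, -, hTq, hTbd⟩ := hMap n C Γ hC g hgm s (k' + 1)
      (fun j => lam' (φ j)) (fun j => q' (φ j)) hs0 (fun j => hq' (φ j)) hpq j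
    have hTp : T p = c • T (q' (φ j)) := by rw [hp, map_smul]
    have hTp0 : T p ≠ 0 := by
      rw [hTp]
      exact smul_ne_zero hc.ne' (hul.lamNe _ hTq)
    have hTbd' : ∀ u, ∃ M : ℝ, 0 < M ∧ M • T p - T u ∈ closure C ∧ M • T p + T u ∈ closure C := by
      intro u
      obtain ⟨M, hM0, hM1, hM2⟩ := hTbd u
      refine ⟨M / c, by positivity, ?_, ?_⟩
      · rw [hTp, smul_smul, div_mul_cancel₀ _ hc.ne']
        exact hM1
      · rw [hTp, smul_smul, div_mul_cancel₀ _ hc.ne']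
        exact hM2
    have hpcl : p ∈ closure C := hul.lamCl _ hEgp.1
    have h2T : (2 : ℝ) • T p - T (∑ m, w m) ∈ closure C :=
      hBnd n k C Γ hC w z' e g s (lam' (φ j)) δ η i T p hRδ hl0 hδ0 hδ1 hη0.le hηδ hFar hNv
        hEgp.2 hpcl hTcl hTcom hTbd'
    have hray := hRay n k C Γ hC g hgm w i s (lam' (φ j)) p γ t T hs0 hFG.pes hMT hEgp
      (nv_mono hP hfl (by linarith) hNv) hTp0 h2T hN2'
    have hext : Ext C p := hExt n k C Γ hC g hgm w i s (lam' (φ j)) η θ p γ t T hs0 hFG.pes hMT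
      hEgp hη0.le hη1 hη2 hNv hTp0 h2T hray (hUN w hFG.pes i)
    refine ⟨?_, ?_⟩
    · intro y hy M hMy
      have h3 : (M / c) • p - y ∈ closure C := by
        rw [hp, smul_smul, div_mul_cancel₀ _ hc.ne']
        exact hMy
      obtain ⟨c₂, hc₂⟩ := hext y hy (M / c) h3
      exact ⟨c₂ * c, by rw [hc₂, hp, smul_smul]⟩
    · intro v hv
      obtain ⟨c₂, hc₂, hv₂⟩ := hray v hv
      exact ⟨c₂ * c, mul_pos hc₂ hc, by rw [hv₂, hp, smul_smul]⟩
  exact ⟨k', hk', fun j => q' (φ j), hpq, hCoc n C Γ hC g hgm s k' (fun j => lam' (φ j))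
    (fun j => q' (φ j)) hs0 hk' (fun j => hq' (φ j)) hpq (fun j => (key j).1)
    (fun j => (key j).2)⟩

end Pool.Agent.VMX.H8
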